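import Pool.Agent.U282.TF.Poly

/-!
# MP_34be05_nt (Q1): the vanishing conjecture of Calegari and Geraghty follows from coarse estimates

The conjecture: for a non-Eisenstein maximal ideal `𝔪`, `H^i(Y(K_f), 𝒲)_𝔪 ≠ 0` only if `q₀ ≤ i ≤ q₀ + ℓ₀`.

The prime `p` and the finite set `Σ` are fixed. A *datum* is a connected reductive group `G` over `ℚ` with `K_f` (neat,
hyperspecial outside `Σ`), a finite-dimensional continuous representation `W` of `K_p` over an algebraic closure `F`
of `𝔽_p`, and a maximal ideal `𝔪` of the Hecke algebra over `F` in the support of `H^*(Y(K_f), 𝒲)`, which has an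
attached non-Eisenstein `ρ̄_𝔪`. (The coefficients `W` over `F` are enough: if a finitely generated `𝒪`-module `W`
violates the conjecture in degree `i`, then so does one of the representations `ϖ^j W_tors / ϖ^(j+1) W_tors`,
`W_free / ϖ` of `K_p`, in the same degree `i`.)

The data are closed under external products: `G × G'`, `K_f × K_f'`, `W ⊠ W'`, `𝔪 ⊠ 𝔪'`. Then
`Y(K_f × K_f') = Y(K_f) × Y(K_f')`, so `d_Y`, `ℓ₀` and `q₀` are additive, and the localised cohomology is the tensor
product (Künneth). The representation attached to `𝔪 ⊠ 𝔪'` is `(ρ̄, ρ̄')`. It is non-Eisenstein: the two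
projections of a parabolic subgroup of the `L`-group of `G × G'` are parabolic subgroups, and one of them is proper
if the subgroup is proper.

*Theorem.* Let `tot X` be the dimension of `H^*_𝔪`, `near X w` the dimension of the part in the degrees at distance
`≤ w` from `q₀`, and `far X w` the dimension of the part in the degrees at distance `> w` from `[q₀, q₀ + ℓ₀]`.

1. The conjecture holds for a datum if and only if it holds for one (all) of its powers.
2. (Square root law.) If `ℓ₀ = 0` and the conjecture fails for `X`, then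
   `near (X^n) w ≤ C * (w + 1) / √n * tot (X^n)` for all `n` and `w`, with `C` depending only on `X`.
3. So the conjecture holds for all data with `ℓ₀ = 0` if and only if there are functions `f` and `w` with
   `f d * √d / (w d + 1) → ∞` such that `near X (w d_Y) ≥ f d_Y * tot X` for all data `X` with `ℓ₀ = 0`. For example it is
   enough that a share of `d_Y^(-1/2+ε)` of the cohomology is in the middle degree, or that half of the
   cohomology is at distance `≤ d_Y^(1/2-ε)` from the middle degree.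
4. The conjecture holds for all data if and only if there are functions `g` and `w` with `w d / d → 0` and
   `g d ≤ c ^ d` for large `d` and each `c > 0`, such that `far X (w d_Y) ≤ g d_Y * tot X` for all data `X`. For example
   (`g = 0`) it is enough that the cohomology is in the degrees between `q₀ - o(d_Y)` and `q₀ + ℓ₀ + o(d_Y)`.
5. The conjecture holds for all data if it holds for all the data of the form `X × X₀`, with one fixed
   datum `X₀`.

The theorem holds for each class of data which is closed under external products.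
-/

set_option autoImplicit false

namespace Pool.Agent.Results.MP_34be05_nt.CoarseVanishing

open Pool.Agent.U282.TF Filter Module
open scoped TensorProduct

universe u

/-- A class of data for the vanishing conjecture which is closed under external products, with the known facts
which are used. -/
structure CGTheory where
  /-- the algebraic closure of `𝔽_p` -/
  F : Type
  [field : Field F]
  /-- the data `(G, K_f, W, 𝔪)` (`p` and `Σ` are fixed), where `𝔪` has an attached representation and is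
  non-Eisenstein -/
  Datum : Type u
  /-- the dimension of `Y(K_f)` -/
  dY : Datum → ℕ
  /-- the defect `ℓ₀` -/
  l0 : Datum → ℕ
  /-- `q₀` -/
  q0 : Datum → ℕ
  q0_spec : ∀ X, 2 * q0 X + l0 X = dY X
  /-- the localised cohomology `H^i(Y(K_f), 𝒲)_𝔪` -/
  H : Datum → ℕ → Type
  [grp : ∀ X i, AddCommGroup (H X i)]
  [mod : ∀ X i, Module F (H X i)]
  [fin : ∀ X i, Module.Finite F (H X i)]
  /-- `𝔪` is in the support -/
  supp : ∀ X, ∃ i, Nontrivial (H X i)
  /-- no cohomology above the dimension -/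
  top : ∀ X i, dY X < i → Subsingleton (H X i)
  /-- the external product -/
  prod : Datum → Datum → Datum
  dY_prod : ∀ X Y, dY (prod X Y) = dY X + dY Y
  l0_prod : ∀ X Y, l0 (prod X Y) = l0 X + l0 Y
  /-- the Künneth formula -/
  kunneth : ∀ X Y k, Nonempty (H (prod X Y) k ≃ₗ[F]
    ((p : (Finset.HasAntidiagonal.antidiagonal k : Finset (ℕ × ℕ))) → (H X p.1.1 ⊗[F] H Y p.1.2)))

attribute [instance] CGTheory.field CGTheory.grp CGTheory.mod CGTheory.fin

variable (T : CGTheory.{u})

/-- The conjecture for the datum `X`. -/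
def Vanishing (X : T.Datum) : Prop :=
  ∀ i : ℕ, Nontrivial (T.H X i) → T.q0 X ≤ i ∧ i ≤ T.q0 X + T.l0 X

/-- The Betti numbers. -/
noncomputable def b (X : T.Datum) (i : ℕ) : ℕ := finrank T.F (T.H X i)

/-- The power `X ^ (n + 1)`. -/
def pw (X : T.Datum) : ℕ → T.Datum
  | 0 => X
  | n + 1 => T.prod (pw X n) X

/-- The dimension of the cohomology. -/
noncomputable def tot (X : T.Datum) : ℕ := ∑ i ∈ Finset.range (T.dY X + 1), b T X i

/-- The dimension of the part of the cohomology in the degrees `i` with `|i - q₀| ≤ w`. -/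
noncomputable def near (X : T.Datum) (w : ℕ) : ℕ :=
  ∑ i ∈ (Finset.range (T.dY X + 1)).filter (fun i : ℕ => |(i : ℤ) - T.q0 X| ≤ w), b T X i

/-- The dimension of the part of the cohomology in the degrees `i < q₀ - w` and `i > q₀ + ℓ₀ + w`. -/
noncomputable def far (X : T.Datum) (w : ℕ) : ℕ :=
  ∑ i ∈ (Finset.range (T.dY X + 1)).filter
    (fun i : ℕ => i + w < T.q0 X ∨ T.q0 X + T.l0 X + w < i), b T X i

variable {T}

lemma b_ne_iff (X : T.Datum) (i : ℕ) : b T X i ≠ 0 ↔ Nontrivial (T.H X i) := by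
  rw [b, ← Nat.pos_iff_ne_zero, finrank_pos_iff]

lemma b_top (X : T.Datum) (i : ℕ) (h : T.dY X < i) : b T X i = 0 := by
  have := T.top X i h
  exact finrank_zero_of_subsingleton

lemma b_prod (X Y : T.Datum) (k : ℕ) : b T (T.prod X Y) k =
    ∑ p ∈ Finset.HasAntidiagonal.antidiagonal k, b T X p.1 * b T Y p.2 := by
  obtain ⟨e⟩ := T.kunneth X Y k
  rw [b, e.finrank_eq, finrank_pi_fintype]
  simp only [finrank_tensorProduct]
  exact Finset.sum_coe_sort (Finset.HasAntidiagonal.antidiagonal k)
    (fun p : ℕ × ℕ => b T X p.1 * b T Y p.2)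

/-- The Poincaré polynomial. -/
noncomputable def poin (X : T.Datum) : Polynomial ℕ :=
  ∑ i ∈ Finset.range (T.dY X + 1), Polynomial.monomial i (b T X i)

lemma coeff_poin (X : T.Datum) (i : ℕ) : (poin X).coeff i = b T X i := by
  rw [poin, Polynomial.finsetSum_coeff]
  simp only [Polynomial.coeff_monomial]
  rw [Finset.sum_ite_eq' (Finset.range (T.dY X + 1)) i (fun j => b T X j)]
  split_ifs with h
  · rfl
  · rw [Finset.mem_range, not_lt] at h
    rw [b_top X i (by omega)]

lemma poin_prod (X Y : T.Datum) : poin (T.prod X Y) = poin X * poin Y := by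
  ext k
  rw [coeff_poin, Polynomial.coeff_mul, b_prod]
  simp only [coeff_poin]

lemma poin_pw (X : T.Datum) (n : ℕ) : poin (pw T X n) = poin X ^ (n + 1) := by
  induction n with
  | zero => rw [zero_add, pow_one]; rfl
  | succ n ih => rw [pw, poin_prod, ih, pow_succ _ (n + 1)]

lemma dY_pw (X : T.Datum) (n : ℕ) : T.dY (pw T X n) = (n + 1) * T.dY X := by
  induction n with
  | zero => rw [zero_add, one_mul]; rfl
  | succ n ih => rw [pw, T.dY_prod, ih]; ring

lemma l0_pw (X : T.Datum) (n : ℕ) : T.l0 (pw T X n) = (n + 1) * T.l0 X := by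
  induction n with
  | zero => rw [zero_add, one_mul]; rfl
  | succ n ih => rw [pw, T.l0_prod, ih]; ring

lemma q0_prod (X Y : T.Datum) : T.q0 (T.prod X Y) = T.q0 X + T.q0 Y := by
  have h1 := T.q0_spec (T.prod X Y)
  rw [T.dY_prod, T.l0_prod] at h1
  have h2 := T.q0_spec X
  have h3 := T.q0_spec Y
  omega

lemma q0_pw (X : T.Datum) (n : ℕ) : T.q0 (pw T X n) = (n + 1) * T.q0 X := by
  induction n with
  | zero => rw [zero_add, one_mul]; rfl
  | succ n ih => rw [pw, q0_prod, ih]; ring

lemma tot_eq (X : T.Datum) : tot T X = (poin X).eval 1 := by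
  rw [tot, poin, Polynomial.eval_finset_sum]
  simp

lemma tot_pw (X : T.Datum) (n : ℕ) : tot T (pw T X n) = tot T X ^ (n + 1) := by
  rw [tot_eq, poin_pw, Polynomial.eval_pow, ← tot_eq]

lemma tot_pos (X : T.Datum) : 0 < tot T X := by
  obtain ⟨i, hi⟩ := T.supp X
  have h := (b_ne_iff X i).2 hi
  have h1 : i ≤ T.dY X := by
    by_contra hcon
    exact h (b_top X i (by omega))
  exact Nat.lt_of_lt_of_le (Nat.pos_of_ne_zero h)
    (Finset.single_le_sum (fun j _ => Nat.zero_le (b T X j)) (Finset.mem_range.2 (by omega)))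

lemma near_le_tot (X : T.Datum) (w : ℕ) : near T X w ≤ tot T X :=
  Finset.sum_le_sum_of_subset (Finset.filter_subset _ _)

lemma near_eq (X : T.Datum) (w : ℕ) : near T X w =
    ∑ k ∈ (poin X).support.filter (fun k : ℕ => |(k : ℤ) - T.q0 X| ≤ w), (poin X).coeff k := by
  rw [near]
  simp only [coeff_poin]
  symm
  apply Finset.sum_subset
  · intro k hk
    rw [Finset.mem_filter] at hk ⊢
    refine ⟨Finset.mem_range.2 ?_, hk.2⟩
    by_contra hcon
    have h := Polynomial.mem_support_iff.1 hk.1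
    rw [coeff_poin] at h
    exact h (b_top X k (by omega))
  · intro k hk h
    rw [Finset.mem_filter] at hk h
    by_contra hcon
    refine h ⟨Polynomial.mem_support_iff.2 ?_, hk.2⟩
    rwa [coeff_poin]

lemma pow_pos_b (X : T.Datum) (i n : ℕ) (h : b T X i ≠ 0) : b T (pw T X n) ((n + 1) * i) ≠ 0 := by
  rw [← coeff_poin, poin_pw]
  have h1 := coeff_pow_ge (poin X) i (n + 1)
  rw [coeff_poin] at h1
  have h2 : 0 < b T X i ^ (n + 1) := Nat.pow_pos (Nat.pos_of_ne_zero h)
  omega

lemma not_van {X : T.Datum} (h : ¬ Vanishing T X) :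
    ∃ i, b T X i ≠ 0 ∧ (i < T.q0 X ∨ T.q0 X + T.l0 X < i) := by
  unfold Vanishing at h
  push Not at h
  obtain ⟨i, hi, h⟩ := h
  refine ⟨i, (b_ne_iff X i).2 hi, ?_⟩
  by_contra hcon
  push Not at hcon
  have := h hcon.1
  omega

lemma dY_pos {X : T.Datum} (h : ¬ Vanishing T X) : 0 < T.dY X := by
  obtain ⟨i, hi, h⟩ := not_van h
  have h1 : i ≤ T.dY X := by
    by_contra hcon
    exact hi (b_top X i (by omega))
  have h2 := T.q0_spec X
  omega

lemma van_prod {X Y : T.Datum} (hX : Vanishing T X) (hY : Vanishing T Y) :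
    Vanishing T (T.prod X Y) := by
  intro k hk
  have h1 := (b_ne_iff _ k).2 hk
  rw [b_prod] at h1
  obtain ⟨p, hp, h2⟩ := Finset.exists_ne_zero_of_sum_ne_zero h1
  rw [Finset.HasAntidiagonal.mem_antidiagonal] at hp
  have h3 := hX p.1 ((b_ne_iff _ _).1 (left_ne_zero_of_mul h2))
  have h4 := hY p.2 ((b_ne_iff _ _).1 (right_ne_zero_of_mul h2))
  rw [q0_prod, T.l0_prod]
  omega

lemma van_pw_iff (X : T.Datum) (n : ℕ) : Vanishing T (pw T X n) ↔ Vanishing T X := by
  constructor
  · intro h
    by_contra hcon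
    obtain ⟨i, hi, h1⟩ := not_van hcon
    have h2 := h _ ((b_ne_iff _ _).1 (pow_pos_b X i n hi))
    rw [q0_pw, l0_pw, ← mul_add] at h2
    have h3 := Nat.le_of_mul_le_mul_left h2.1 (Nat.succ_pos n)
    have h4 := Nat.le_of_mul_le_mul_left h2.2 (Nat.succ_pos n)
    omega
  · intro h
    induction n with
    | zero => exact h
    | succ n ih => exact van_prod ih h

/-- The square root law. -/
lemma small {X : T.Datum} (h0 : T.l0 X = 0) (h : ¬ Vanishing T X) :
    ∃ C : ℝ, ∀ n w : ℕ, (near T (pw T X n) w : ℝ) * √((n : ℝ) + 1) ≤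
      C * (w + 1) * tot T (pw T X n) := by
  obtain ⟨i, hi, h1⟩ := not_van h
  by_cases hj : ∃ j, j ≠ i ∧ b T X j ≠ 0
  · obtain ⟨j, hji, hj⟩ := hj
    obtain ⟨C, -, hC⟩ := window_le (P := poin X) hji (by rwa [coeff_poin]) (by rwa [coeff_poin])
    refine ⟨C, fun n w => ?_⟩
    have h2 := hC (n + 1) (T.q0 (pw T X n)) w (Nat.succ_pos n)
    rw [near_eq, tot_pw, poin_pw, tot_eq]
    push_cast at h2 ⊢
    exact h2
  · push Not at hj
    refine ⟨1, fun n w => ?_⟩
    -- only one degree
    have hz : ∀ (n k : ℕ), k ≠ (n + 1) * i → b T (pw T X n) k = 0 := by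
      intro n
      induction n with
      | zero =>
        intro k hk
        by_contra hcon
        exact hcon (hj k (by omega))
      | succ n ih =>
        intro k hk
        rw [pw, b_prod]
        refine Finset.sum_eq_zero fun p hp => ?_
        rw [Finset.HasAntidiagonal.mem_antidiagonal] at hp
        by_cases h3 : p.1 = (n + 1) * i
        · rw [hj p.2, mul_zero]
          intro h4
          apply hk
          rw [← hp, h3, h4]
          ring
        · rw [ih _ h3, zero_mul]
    have hs : √((n : ℝ) + 1) ≤ (n : ℝ) + 1 := by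
      have h5 : (1 : ℝ) ≤ (n : ℝ) + 1 := by linarith [Nat.cast_nonneg (α := ℝ) n]
      rw [Real.sqrt_le_left (by linarith)]
      nlinarith
    by_cases hw : n + 1 ≤ w
    · have h5 : (near T (pw T X n) w : ℝ) ≤ tot T (pw T X n) := by
        exact_mod_cast near_le_tot _ _
      have h6 : ((n : ℝ) + 1) ≤ w := by exact_mod_cast hw
      have h7 : (0 : ℝ) ≤ near T (pw T X n) w := Nat.cast_nonneg _
      calc (near T (pw T X n) w : ℝ) * √((n : ℝ) + 1)
          ≤ (tot T (pw T X n) : ℝ) * (w + 1) :=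
            mul_le_mul h5 (by linarith) (Real.sqrt_nonneg _) (Nat.cast_nonneg _)
        _ = 1 * (w + 1) * tot T (pw T X n) := by ring
    · have h5 : near T (pw T X n) w = 0 := by
        rw [near]
        refine Finset.sum_eq_zero fun k hk => ?_
        by_contra hcon
        have h6 : k = (n + 1) * i := by
          by_contra h7
          exact hcon (hz n k h7)
        have h7 := (Finset.mem_filter.1 hk).2
        rw [h6, q0_pw, abs_le] at h7
        rw [h0, add_zero] at h1
        push_cast at h7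
        rcases h1 with h1 | h1
        · have h8 : (i : ℤ) + 1 ≤ T.q0 X := by exact_mod_cast h1
          have h9 : ((n : ℤ) + 1) * ((i : ℤ) + 1) ≤ ((n : ℤ) + 1) * T.q0 X :=
            mul_le_mul_of_nonneg_left h8 (by positivity)
          have h10 : (w : ℤ) < n + 1 := by exact_mod_cast not_le.1 hw
          nlinarith [h7.1]
        · have h8 : (T.q0 X : ℤ) + 1 ≤ i := by exact_mod_cast h1
          have h9 : ((n : ℤ) + 1) * ((T.q0 X : ℤ) + 1) ≤ ((n : ℤ) + 1) * i :=
            mul_le_mul_of_nonneg_left h8 (by positivity)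
          have h10 : (w : ℤ) < n + 1 := by exact_mod_cast not_le.1 hw
          nlinarith [h7.2]
      rw [h5, Nat.cast_zero, zero_mul]
      positivity

lemma tend (d : ℕ) (hd : 0 < d) : Tendsto (fun n : ℕ => (n + 1) * d) atTop atTop :=
  (tendsto_id.comp (tendsto_add_atTop_nat 1)).atTop_mul_const' hd

lemma global_zero {f : ℕ → ℝ} {w : ℕ → ℕ}
    (hf : Tendsto (fun d : ℕ => f d * √(d : ℝ) / ((w d : ℝ) + 1)) atTop atTop)
    (h : ∀ X, T.l0 X = 0 → f (T.dY X) * tot T X ≤ near T X (w (T.dY X))) (X : T.Datum)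
    (h0 : T.l0 X = 0) : Vanishing T X := by
  by_contra hcon
  have hd := dY_pos hcon
  obtain ⟨C, hC⟩ := small h0 hcon
  have h1 := hf.comp (tend _ hd)
  obtain ⟨n, hn⟩ := (h1.eventually_gt_atTop (C * √(T.dY X : ℝ))).exists
  simp only [Function.comp_apply] at hn
  have h2 := h (pw T X n) (by rw [l0_pw, h0, mul_zero])
  have h3 := hC n (w (T.dY (pw T X n)))
  rw [dY_pw] at h2 h3
  have h4 : (0 : ℝ) < tot T (pw T X n) := by exact_mod_cast tot_pos _
  have h5 := (mul_le_mul_of_nonneg_right h2 (Real.sqrt_nonneg ((n : ℝ) + 1))).trans h3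
  have h6 : (f ((n + 1) * T.dY X) * √((n : ℝ) + 1)) * tot T (pw T X n) ≤
      (C * ((w ((n + 1) * T.dY X) : ℝ) + 1)) * tot T (pw T X n) := by linarith
  have h7 := le_of_mul_le_mul_right h6 h4
  rw [lt_div_iff₀ (by positivity)] at hn
  rw [Nat.cast_mul, Real.sqrt_mul (Nat.cast_nonneg _), ← mul_assoc] at hn
  push_cast at hn
  have h8 := mul_le_mul_of_nonneg_right h7 (Real.sqrt_nonneg (T.dY X : ℝ))
  linarith

lemma global_all {g : ℕ → ℝ} {w : ℕ → ℕ}
    (hw : Tendsto (fun d : ℕ => (w d : ℝ) / d) atTop (nhds 0))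
    (hg : ∀ c : ℝ, 0 < c → ∀ᶠ d : ℕ in atTop, g d ≤ c ^ d)
    (h : ∀ X, (far T X (w (T.dY X)) : ℝ) ≤ g (T.dY X) * tot T X) (X : T.Datum) :
    Vanishing T X := by
  by_contra hcon
  have hd := dY_pos hcon
  obtain ⟨i, hi, h1⟩ := not_van hcon
  have ht : (1 : ℝ) ≤ tot T X := by exact_mod_cast tot_pos X
  have hc : (0 : ℝ) < 1 / (2 * tot T X) := by positivity
  have hdr : (0 : ℝ) < T.dY X := by exact_mod_cast hd
  have e1 := (tend _ hd).eventually (hg _ hc)
  have e2 := (tend _ hd).eventually
    (hw.eventually_lt_const (by positivity : (0 : ℝ) < 1 / T.dY X))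
  obtain ⟨n, hn1, hn2⟩ := (e1.and e2).exists
  -- the distance
  have hwn : w ((n + 1) * T.dY X) < n + 1 := by
    rw [div_lt_div_iff₀ (by positivity) hdr] at hn2
    push_cast at hn2
    have h3 : (w ((n + 1) * T.dY X) : ℝ) < (n : ℝ) + 1 := by
      have h4 : (w ((n + 1) * T.dY X) : ℝ) * T.dY X < ((n : ℝ) + 1) * T.dY X := by linarith
      exact lt_of_mul_lt_mul_right h4 hdr.le
    exact_mod_cast h3
  have h2 := pow_pos_b X i n hi
  have h3 : 1 ≤ far T (pw T X n) (w (T.dY (pw T X n))) := by
    refine (Nat.one_le_iff_ne_zero.2 h2).trans ?_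
    refine Finset.single_le_sum (f := fun j => b T (pw T X n) j) (fun j _ => Nat.zero_le _) ?_
    rw [Finset.mem_filter, Finset.mem_range]
    constructor
    · by_contra hcon
      exact h2 (b_top _ _ (by omega))
    · rw [q0_pw, l0_pw, dY_pw, ← mul_add]
      rcases h1 with h1 | h1
      · left
        have h4 : (n + 1) * (i + 1) ≤ (n + 1) * T.q0 X := Nat.mul_le_mul_left _ h1
        rw [mul_add, mul_one] at h4
        omega
      · right
        have h4 : (n + 1) * (T.q0 X + T.l0 X + 1) ≤ (n + 1) * i := Nat.mul_le_mul_left _ h1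
        rw [mul_add _ _ 1, mul_one] at h4
        omega
  have h4 := h (pw T X n)
  rw [tot_pw, dY_pw] at h4
  rw [dY_pw] at h3
  have h5 : (1 : ℝ) ≤ far T (pw T X n) (w ((n + 1) * T.dY X)) := by exact_mod_cast h3
  have h6 : (1 / (2 * (tot T X : ℝ))) ^ ((n + 1) * T.dY X) ≤ (1 / (2 * (tot T X : ℝ))) ^ (n + 1) := by
    apply pow_le_pow_of_le_one hc.le
    · rw [div_le_one (by positivity)]
      linarith
    · exact Nat.le_mul_of_pos_right _ hd
  have h7 : (1 : ℝ) ≤ (1 / (2 * (tot T X : ℝ))) ^ (n + 1) * (tot T X : ℝ) ^ (n + 1) := by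
    refine (h5.trans h4).trans ?_
    push_cast
    exact mul_le_mul_of_nonneg_right (hn1.trans h6) (by positivity)
  rw [← mul_pow] at h7
  have h8 : 1 / (2 * (tot T X : ℝ)) * tot T X = 1 / 2 := by
    field_simp
  rw [h8] at h7
  have h9 : (1 / 2 : ℝ) ^ (n + 1) < 1 := pow_lt_one₀ (by norm_num) (by norm_num) (Nat.succ_ne_zero n)
  linarith

lemma absorb (X₀ : T.Datum) (h : ∀ X, Vanishing T (T.prod X X₀)) (X : T.Datum) :
    Vanishing T X := by
  by_contra hcon
  obtain ⟨i, hi, h1⟩ := not_van hcon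
  obtain ⟨j, hj⟩ := T.supp X₀
  have hj' := (b_ne_iff X₀ j).2 hj
  have hjd : j ≤ T.dY X₀ := by
    by_contra hcon
    exact hj' (b_top X₀ j (by omega))
  have hq := T.q0_spec X₀
  set n := T.dY X₀ with hn
  have h2 : b T (T.prod (pw T X n) X₀) ((n + 1) * i + j) ≠ 0 := by
    rw [b_prod]
    have h3 : b T (pw T X n) ((n + 1) * i) * b T X₀ j ≠ 0 := mul_ne_zero (pow_pos_b X i n hi) hj'
    intro h4
    rw [Finset.sum_eq_zero_iff] at h4
    exact h3 (h4 ((n + 1) * i, j) (by rw [Finset.HasAntidiagonal.mem_antidiagonal]))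
  have h3 := h (pw T X n) _ ((b_ne_iff _ _).1 h2)
  rw [q0_prod, T.l0_prod, q0_pw, l0_pw] at h3
  rcases h1 with h1 | h1
  · have h4 : (n + 1) * (i + 1) ≤ (n + 1) * T.q0 X := Nat.mul_le_mul_left _ h1
    rw [mul_add, mul_one] at h4
    omega
  · have h4 : (n + 1) * (T.q0 X + T.l0 X + 1) ≤ (n + 1) * i := Nat.mul_le_mul_left _ h1
    rw [mul_add _ _ 1, mul_one, mul_add] at h4
    omega

variable (T)

/-- **The vanishing conjecture follows from coarse estimates.** -/
theorem result :
    (∀ X n, Vanishing T (pw T X n) ↔ Vanishing T X) ∧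
    (∀ X, T.l0 X = 0 → ¬ Vanishing T X → ∃ C : ℝ, ∀ n w : ℕ,
      (near T (pw T X n) w : ℝ) * √((n : ℝ) + 1) ≤ C * (w + 1) * tot T (pw T X n)) ∧
    ((∀ X, T.l0 X = 0 → Vanishing T X) ↔ ∃ (f : ℕ → ℝ) (w : ℕ → ℕ),
      Tendsto (fun d : ℕ => f d * √(d : ℝ) / ((w d : ℝ) + 1)) atTop atTop ∧
      ∀ X, T.l0 X = 0 → f (T.dY X) * tot T X ≤ near T X (w (T.dY X))) ∧
    ((∀ X, Vanishing T X) ↔ ∃ (g : ℕ → ℝ) (w : ℕ → ℕ),
      Tendsto (fun d : ℕ => (w d : ℝ) / d) atTop (nhds 0) ∧
      (∀ c : ℝ, 0 < c → ∀ᶠ d : ℕ in atTop, g d ≤ c ^ d) ∧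
      ∀ X, (far T X (w (T.dY X)) : ℝ) ≤ g (T.dY X) * tot T X) ∧
    (∀ X₀, (∀ X, Vanishing T (T.prod X X₀)) ↔ ∀ X, Vanishing T X) := by
  refine ⟨van_pw_iff, fun X => small, ⟨fun h => ?_, fun ⟨f, w, hf, h⟩ => global_zero hf h⟩,
    ⟨fun h => ?_, fun ⟨g, w, hw, hg, h⟩ => global_all hw hg h⟩,
    fun X₀ => ⟨absorb X₀, fun h X => h _⟩⟩
  · refine ⟨fun _ => 1, fun _ => 0, ?_, fun X h0 => ?_⟩
    · simp only [one_mul, Nat.cast_zero, zero_add, div_one]
      exact Real.tendsto_sqrt_atTop.comp tendsto_natCast_atTop_atTop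
    · rw [one_mul]
      have h1 : tot T X = near T X 0 := by
        rw [tot, near]
        symm
        apply Finset.sum_subset (Finset.filter_subset _ _)
        intro k hk h2
        by_contra hcon
        have h3 := h X h0 k ((b_ne_iff _ _).1 hcon)
        rw [h0, add_zero] at h3
        have h4 : k = T.q0 X := le_antisymm h3.2 h3.1
        apply h2
        rw [Finset.mem_filter]
        refine ⟨hk, ?_⟩
        rw [h4, sub_self, abs_zero]
        exact le_refl _
      rw [h1]
  · refine ⟨fun _ => 0, fun _ => 0, by simp, fun c hc => Eventually.of_forall fun d => by positivity,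
      fun X => ?_⟩
    have h1 : far T X 0 = 0 := by
      rw [far]
      refine Finset.sum_eq_zero fun k hk => ?_
      by_contra hcon
      have h2 := h X k ((b_ne_iff _ _).1 hcon)
      have h3 := (Finset.mem_filter.1 hk).2
      omega
    rw [h1]
    simp

end Pool.Agent.Results.MP_34be05_nt.CoarseVanishing
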